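import Mathlib

/-!
# A T-basis of `ℓ₂` that is not a gamma-basis for the tail-sum matrix
-/

open Filter Topology

namespace Pool.Agent.Results.MP_8f7167_an.TBasisNotGammaBasis

section Defs

variable {𝕜 E : Type} [RCLike 𝕜] [NormedAddCommGroup E] [NormedSpace 𝕜 E]

/-- Consistent matrices. -/
def Consistent (t : ℕ → ℕ → 𝕜) : Prop :=
  (∃ C : ℝ, ∀ n, Summable (fun m => ‖t n m‖) ∧ ∑' m, ‖t n m‖ ≤ C) ∧
  (∀ m, Tendsto (fun n => t n m) atTop (𝓝 0)) ∧
  Tendsto (fun n => ∑' m, t n m) atTop (𝓝 1)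

/-- M-basis with its associated functionals. -/
structure IsMBasis (x : ℕ → E) (f : ℕ → StrongDual 𝕜 E) : Prop where
  biorth : ∀ i j, f i (x j) = if i = j then 1 else 0
  dense : Dense (Submodule.span 𝕜 (Set.range x) : Set E)
  total : ∀ y, (∀ i, f i y = 0) → y = 0

/-- The sequence `α` represents `y` with respect to the matrix `t`: every
`σ n = lim_m ∑_{j<m} t n j • ∑_{i≤j} α i • x i` exists and `σ n → y`. -/
def Represents (t : ℕ → ℕ → 𝕜) (x : ℕ → E) (α : ℕ → 𝕜) (y : E) : Prop :=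
  ∃ σ : ℕ → E,
    (∀ n, Tendsto (fun m => ∑ j ∈ Finset.range m, t n j • ∑ i ∈ Finset.range (j + 1), α i • x i)
      atTop (𝓝 (σ n))) ∧ Tendsto σ atTop (𝓝 y)

/-- T-basis with respect to `t`. -/
def IsTBasis (t : ℕ → ℕ → 𝕜) (x : ℕ → E) : Prop :=
  ∀ y : E, ∃! α : ℕ → 𝕜, Represents t x α y

/-- The tail-sum matrix `lam n m = ∑_{j ≥ m} t n j`. -/
noncomputable def tailSum (t : ℕ → ℕ → 𝕜) (n m : ℕ) : 𝕜 := ∑' j, t n (m + j)

/-- gamma-basis with respect to `lam`: the series `τ n = ∑_i (lam n i * f i y) • x i` converge and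
`τ n → y`. -/
def IsGammaBasis (lam : ℕ → ℕ → 𝕜) (x : ℕ → E) (f : ℕ → StrongDual 𝕜 E) : Prop :=
  IsMBasis x f ∧ ∀ y : E, ∃ τ : ℕ → E,
    (∀ n, Tendsto (fun m => ∑ i ∈ Finset.range m, (lam n i * f i y) • x i) atTop (𝓝 (τ n))) ∧
      Tendsto τ atTop (𝓝 y)

end Defs

section Construction

variable (𝕜 : Type) [RCLike 𝕜]

/-- The Hilbert space `ℓ₂`. -/
abbrev L2 : Type := lp (fun _ : ℕ => 𝕜) 2

/-- Unit vectors. -/
noncomputable def e (n : ℕ) : L2 𝕜 := lp.single 2 n (1 : 𝕜)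

/-- Coordinate functionals. -/
noncomputable def co (n : ℕ) : StrongDual 𝕜 (L2 𝕜) := lp.evalCLM 𝕜 (fun _ : ℕ => 𝕜) 2 n

variable {𝕜}

lemma e_apply (n j : ℕ) : e 𝕜 n j = if j = n then 1 else 0 := by
  simp [e, lp.single_apply, Pi.single_apply]

lemma co_apply (n : ℕ) (y : L2 𝕜) : co 𝕜 n y = y n := rfl

lemma norm_e (n : ℕ) : ‖e 𝕜 n‖ = 1 := by
  rw [e, lp.norm_single (by norm_num)]
  simp

variable (𝕜)

/-- The sequence. -/
noncomputable def x (n : ℕ) : L2 𝕜 :=
  if n % 2 = 0 then e 𝕜 n else e 𝕜 (n - 1) + ((8 : 𝕜) ^ (n / 2))⁻¹ • e 𝕜 n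

/-- The functionals. -/
noncomputable def f (n : ℕ) : StrongDual 𝕜 (L2 𝕜) :=
  if n % 2 = 0 then co 𝕜 n - (8 : 𝕜) ^ (n / 2) • co 𝕜 (n + 1) else (8 : 𝕜) ^ (n / 2) • co 𝕜 n

variable {𝕜}

lemma x_even (k : ℕ) : x 𝕜 (2 * k) = e 𝕜 (2 * k) := by
  unfold x; rw [if_pos (by omega)]

lemma x_odd (k : ℕ) : x 𝕜 (2 * k + 1) = e 𝕜 (2 * k) + ((8 : 𝕜) ^ k)⁻¹ • e 𝕜 (2 * k + 1) := by
  unfold x
  rw [if_neg (by omega), show (2 * k + 1) / 2 = k by omega, show 2 * k + 1 - 1 = 2 * k by omega]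

lemma f_even (k : ℕ) (y : L2 𝕜) : f 𝕜 (2 * k) y = y (2 * k) - (8 : 𝕜) ^ k * y (2 * k + 1) := by
  unfold f
  rw [if_pos (by omega), show 2 * k / 2 = k by omega]
  rfl

lemma f_odd (k : ℕ) (y : L2 𝕜) : f 𝕜 (2 * k + 1) y = (8 : 𝕜) ^ k * y (2 * k + 1) := by
  unfold f
  rw [if_neg (by omega), show (2 * k + 1) / 2 = k by omega]
  rfl

lemma eight_ne (k : ℕ) : (8 : 𝕜) ^ k ≠ 0 := pow_ne_zero _ (by norm_num)

lemma biorth (i j : ℕ) : f 𝕜 i (x 𝕜 j) = if i = j then 1 else 0 := by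
  have h8 := eight_ne (𝕜 := 𝕜)
  rcases Nat.even_or_odd' i with ⟨k, rfl | rfl⟩ <;> rcases Nat.even_or_odd' j with ⟨l, rfl | rfl⟩
  · rw [f_even, x_even, e_apply, e_apply, if_neg (by omega : ¬ 2 * k + 1 = 2 * l), mul_zero, sub_zero]
  · rw [f_even, x_odd]
    simp only [lp.coeFn_add, lp.coeFn_smul, Pi.add_apply, Pi.smul_apply, e_apply, smul_eq_mul]
    rw [if_neg (by omega : ¬ 2 * k = 2 * l + 1), if_neg (by omega : ¬ 2 * k + 1 = 2 * l)]
    by_cases h : k = l
    · subst h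
      rw [if_pos rfl, if_pos rfl]
      have := h8 k
      field_simp
      simp
    · rw [if_neg (by omega), if_neg (by omega)]
      simp
  · rw [f_odd, x_even, e_apply, if_neg (by omega), mul_zero]
  · rw [f_odd, x_odd]
    simp only [lp.coeFn_add, lp.coeFn_smul, Pi.add_apply, Pi.smul_apply, e_apply, smul_eq_mul]
    rw [if_neg (by omega : ¬ 2 * k + 1 = 2 * l)]
    by_cases h : k = l
    · subst h
      rw [if_pos rfl]
      have := h8 k
      field_simp
      simp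
    · rw [if_neg (by omega)]
      simp

/-- Partial sums of even length are coordinate truncations. -/
lemma psum_even (y : L2 𝕜) (k : ℕ) :
    ∑ i ∈ Finset.range (2 * k), f 𝕜 i y • x 𝕜 i = ∑ j ∈ Finset.range (2 * k), y j • e 𝕜 j := by
  induction k with
  | zero => simp
  | succ k ih =>
    rw [show 2 * (k + 1) = 2 * k + 1 + 1 by ring, Finset.sum_range_succ, Finset.sum_range_succ, ih,
      Finset.sum_range_succ _ (2 * k + 1), Finset.sum_range_succ _ (2 * k), f_even, f_odd, x_even,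
      x_odd, add_assoc, add_assoc]
    congr 1
    rw [smul_add, smul_smul, sub_smul]
    have : (8 : 𝕜) ^ k * y (2 * k + 1) * ((8 : 𝕜) ^ k)⁻¹ = y (2 * k + 1) := by
      have := eight_ne (𝕜 := 𝕜) k
      field_simp
    rw [this]
    abel

lemma tendsto_trunc (y : L2 𝕜) :
    Tendsto (fun N => ∑ j ∈ Finset.range N, y j • e 𝕜 j) atTop (𝓝 y) := by
  have h1 := (lp.hasSum_single (p := 2) (by norm_num) y).tendsto_sum_nat
  refine h1.congr fun N => Finset.sum_congr rfl fun j _ => ?_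
  rw [e, ← lp.single_smul, smul_eq_mul, mul_one]

lemma tendsto_psum_even (y : L2 𝕜) :
    Tendsto (fun k => ∑ i ∈ Finset.range (2 * k), f 𝕜 i y • x 𝕜 i) atTop (𝓝 y) := by
  simp only [psum_even]
  exact (tendsto_trunc y).comp (tendsto_id.const_mul_atTop' (by norm_num))

lemma mbasis : IsMBasis (x 𝕜) (f 𝕜) where
  biorth := biorth
  dense := by
    intro y
    refine mem_closure_of_tendsto (tendsto_psum_even y) (Eventually.of_forall fun n => ?_)
    exact Submodule.sum_mem _ fun i _ => Submodule.smul_mem _ _ (Submodule.subset_span ⟨_, rfl⟩)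
  total := by
    intro y hy
    refine tendsto_nhds_unique (tendsto_psum_even y) ?_
    simp only [hy, zero_smul, Finset.sum_const_zero]
    exact tendsto_const_nhds

/-- The real matrix. -/
noncomputable def tr (n j : ℕ) : ℝ :=
  if j % 2 = 1 ∧ n ≤ j / 2 then (1 / 2) ^ (j / 2 - n + 1) else 0

lemma tr_nonneg (n j : ℕ) : 0 ≤ tr n j := by
  unfold tr; split_ifs <;> positivity

lemma tr_rec (n j : ℕ) : tr n j = (if j = 2 * n + 1 then 1 / 2 else 0) + 1 / 2 * tr (n + 1) j := by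
  unfold tr
  by_cases h1 : j % 2 = 1
  · rcases lt_trichotomy (j / 2) n with h | h | h
    · rw [if_neg (by omega), if_neg (by omega), if_neg (by omega)]; norm_num
    · rw [if_pos (by omega), if_pos (by omega), if_neg (by omega), h]; norm_num
    · rw [if_pos (by omega), if_neg (by omega), if_pos (by omega),
        show j / 2 - n + 1 = (j / 2 - (n + 1) + 1) + 1 by omega, pow_succ]
      ring
  · rw [if_neg (fun h => h1 h.1), if_neg (by omega), if_neg (fun h => h1 h.1)]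
    norm_num

lemma hasSum_tr (n : ℕ) : HasSum (tr n) 1 := by
  have h1 : HasSum (fun k : ℕ => ((1 : ℝ) / 2) ^ (k + 1)) 1 := by
    have := (hasSum_geometric_two).mul_left (1 / 2 : ℝ)
    norm_num at this
    refine this.congr_fun ?_ |> fun h => h
    intro k
    rw [pow_succ]; ring
  have hinj : Function.Injective (fun k : ℕ => 2 * (n + k) + 1) := fun a b h => by
    simp only at h; omega
  have h2 : HasSum (tr n ∘ fun k : ℕ => 2 * (n + k) + 1) 1 := by
    refine h1.congr_fun ?_ |> fun h => h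
    intro k
    simp only [Function.comp, tr]
    rw [if_pos (by omega), show (2 * (n + k) + 1) / 2 - n + 1 = k + 1 by omega]
  refine (hinj.hasSum_iff ?_).1 h2
  intro j hj
  unfold tr
  rw [if_neg]
  rintro ⟨h3, h4⟩
  exact hj ⟨j / 2 - n, by simp only; omega⟩

variable (𝕜)

/-- The matrix. -/
noncomputable def t (n j : ℕ) : 𝕜 := ((tr n j : ℝ) : 𝕜)

variable {𝕜}

lemma norm_t (n j : ℕ) : ‖t 𝕜 n j‖ = tr n j := by
  rw [t, RCLike.norm_ofReal, abs_of_nonneg (tr_nonneg n j)]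

lemma consistent : Consistent (t 𝕜) := by
  refine ⟨⟨1, fun n => ?_⟩, fun m => ?_, ?_⟩
  · simp only [norm_t]
    exact ⟨(hasSum_tr n).summable, (hasSum_tr n).tsum_eq.le⟩
  · refine tendsto_const_nhds.congr' ?_
    filter_upwards [eventually_gt_atTop m] with n hn
    unfold t tr
    rw [if_neg (by omega), RCLike.ofReal_zero]
  · have : ∀ n, ∑' m, t 𝕜 n m = 1 := by
      intro n
      unfold t
      rw [← RCLike.ofReal_tsum, (hasSum_tr n).tsum_eq, RCLike.ofReal_one]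
    simp only [this]
    exact tendsto_const_nhds

/-- The representation of `y` by its coefficients. -/
lemma represents (y : L2 𝕜) : Represents (t 𝕜) (x 𝕜) (fun i => f 𝕜 i y) y := by
  set S : ℕ → L2 𝕜 := fun j => ∑ i ∈ Finset.range (j + 1), f 𝕜 i y • x 𝕜 i with hS
  obtain ⟨M, hM⟩ : ∃ M, ∀ k, ‖∑ i ∈ Finset.range (2 * k), f 𝕜 i y • x 𝕜 i‖ ≤ M := by
    obtain ⟨M, hM⟩ := (tendsto_psum_even y).norm.bddAbove_range
    exact ⟨M, fun k => hM ⟨k, rfl⟩⟩
  have hbound : ∀ n j, ‖t 𝕜 n j • S j‖ ≤ tr n j * M := by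
    intro n j
    rw [norm_smul, norm_t]
    by_cases h : j % 2 = 1
    · refine mul_le_mul_of_nonneg_left ?_ (tr_nonneg n j)
      have := hM ((j + 1) / 2)
      rw [show 2 * ((j + 1) / 2) = j + 1 by omega] at this
      exact this
    · have : tr n j = 0 := by unfold tr; rw [if_neg (fun h' => h h'.1)]
      rw [this]; simp
  have hsum : ∀ n, Summable fun j => t 𝕜 n j • S j := fun n =>
    Summable.of_norm_bounded ((hasSum_tr n).summable.mul_right M) (hbound n)
  refine ⟨fun n => ∑' j, t 𝕜 n j • S j, fun n => (hsum n).hasSum.tendsto_sum_nat, ?_⟩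
  rw [Metric.tendsto_atTop]
  intro δ hδ
  obtain ⟨N, hN⟩ := Metric.tendsto_atTop.1 (tendsto_psum_even y) (δ / 2) (by positivity)
  refine ⟨N, fun n hn => ?_⟩
  have hsumt : HasSum (fun j => t 𝕜 n j • y) y := by
    have h1 : HasSum (fun j => t 𝕜 n j) (1 : 𝕜) := by
      unfold t
      have := (RCLike.ofRealCLM (K := 𝕜)).hasSum (hasSum_tr n)
      simpa using this
    simpa using h1.smul_const y
  have h2 : HasSum (fun j => t 𝕜 n j • S j - t 𝕜 n j • y) (∑' j, t 𝕜 n j • S j - y) :=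
    (hsum n).hasSum.sub hsumt
  rw [dist_eq_norm, ← h2.tsum_eq]
  have h3 : ∀ j, ‖t 𝕜 n j • S j - t 𝕜 n j • y‖ ≤ tr n j * (δ / 2) := by
    intro j
    rw [← smul_sub, norm_smul, norm_t]
    by_cases h : j % 2 = 1 ∧ n ≤ j / 2
    · refine mul_le_mul_of_nonneg_left ?_ (tr_nonneg n j)
      have := hN ((j + 1) / 2) (by omega)
      rw [show 2 * ((j + 1) / 2) = j + 1 by omega, dist_eq_norm] at this
      exact this.le
    · have : tr n j = 0 := by unfold tr; rw [if_neg h]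
      rw [this]; simp
  have h4 := tsum_of_norm_bounded ((hasSum_tr n).mul_right (δ / 2)) h3
  linarith

/-- Uniqueness of the representing sequence. -/
lemma represents_unique {y : L2 𝕜} {α : ℕ → 𝕜} (h : Represents (t 𝕜) (x 𝕜) α y) (i : ℕ) :
    α i = f 𝕜 i y := by
  obtain ⟨σ, hσ, hy⟩ := h
  set S : ℕ → L2 𝕜 := fun j => ∑ i ∈ Finset.range (j + 1), α i • x 𝕜 i with hS
  have hrec : ∀ n, S (2 * n + 1) = (2 : 𝕜) • σ n - σ (n + 1) := by
    intro n
    have h1 : Tendsto (fun m => ∑ j ∈ Finset.range m, t 𝕜 n j • S j) atTop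
        (𝓝 ((1 / 2 : 𝕜) • S (2 * n + 1) + (1 / 2 : 𝕜) • σ (n + 1))) := by
      refine (tendsto_const_nhds.add ((hσ (n + 1)).const_smul (1 / 2 : 𝕜))).congr' ?_
      filter_upwards [eventually_gt_atTop (2 * n + 1)] with m hm
      have h2 : ∀ j, t 𝕜 n j • S j = (if j = 2 * n + 1 then (1 / 2 : 𝕜) • S j else 0) +
          (1 / 2 : 𝕜) • (t 𝕜 (n + 1) j • S j) := by
        intro j
        unfold t
        rw [tr_rec n j]
        split_ifs
        · push_cast; rw [add_smul, smul_smul]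
        · push_cast; rw [zero_add, zero_add, smul_smul]
      rw [Finset.sum_congr rfl fun j _ => h2 j, Finset.sum_add_distrib, ← Finset.smul_sum,
        Finset.sum_ite_eq', if_pos (Finset.mem_range.2 hm)]
    have h3 := tendsto_nhds_unique (hσ n) h1
    rw [h3, smul_add, smul_smul, smul_smul]
    norm_num
  have h5 : Tendsto (fun n => S (2 * n + 1)) atTop (𝓝 y) := by
    simp only [hrec]
    have h6 := (hy.const_smul (2 : 𝕜)).sub ((tendsto_add_atTop_iff_nat 1).2 hy)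
    have h7 : (2 : 𝕜) • y - y = y := by
      rw [two_smul]; abel
    rwa [h7] at h6
  refine tendsto_nhds_unique (f := fun _ : ℕ => α i) tendsto_const_nhds
    ((((f 𝕜 i).continuous.tendsto y).comp h5).congr' ?_)
  filter_upwards [eventually_ge_atTop i] with n hn
  simp only [Function.comp, hS, map_sum, map_smul, biorth, smul_eq_mul, mul_ite, mul_one, mul_zero]
  rw [Finset.sum_ite_eq, if_pos (Finset.mem_range.2 (by omega))]

lemma isTBasis : IsTBasis (t 𝕜) (x 𝕜) := fun y =>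
  ⟨fun i => f 𝕜 i y, represents y, fun _ hα => funext fun i => represents_unique hα i⟩

/-- The bad coordinates. -/
noncomputable def badc (𝕜 : Type) [RCLike 𝕜] (j : ℕ) : 𝕜 :=
  if j % 2 = 1 then ((2 : 𝕜) ^ (j / 2))⁻¹ else 0

lemma badc_mem : Memℓp (badc 𝕜) 2 := by
  refine memℓp_gen ?_
  have h1 : Summable fun j : ℕ => (2 : ℝ) * (1 / 2) ^ j :=
    summable_geometric_two.mul_left 2
  refine Summable.of_nonneg_of_le (fun j => by positivity) (fun j => ?_) h1
  have h2 : ‖badc 𝕜 j‖ ^ (ENNReal.toReal 2) = ‖badc 𝕜 j‖ ^ 2 := by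
    norm_num
  rw [h2]
  unfold badc
  split_ifs with h
  · rw [norm_inv, norm_pow, RCLike.norm_ofNat]
    have h3 : (2 : ℝ) * (1 / 2) ^ j = ((2 ^ (j / 2))⁻¹) ^ 2 := by
      have h4 : j = 2 * (j / 2) + 1 := by omega
      conv_lhs => rw [h4]
      have h5 : ((1 : ℝ) / 2) ^ (2 * (j / 2)) = ((2 ^ (j / 2))⁻¹) ^ 2 := by
        rw [one_div, inv_pow, inv_pow, ← pow_mul, mul_comm 2 (j / 2)]
      rw [pow_succ, h5]
      ring
    rw [h3]
  · have : (0 : ℝ) ≤ 2 * (1 / 2) ^ j := by positivity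
    simpa using this

variable (𝕜)

/-- The bad vector. -/
noncomputable def bad : L2 𝕜 := ⟨badc 𝕜, badc_mem⟩

variable {𝕜}

lemma diverges (z : L2 𝕜) :
    ¬ Tendsto (fun m => ∑ i ∈ Finset.range m, (tailSum (t 𝕜) 0 i * f 𝕜 i (bad 𝕜)) • x 𝕜 i)
      atTop (𝓝 z) := by
  intro h
  have h1 := ((tendsto_add_atTop_iff_nat 1).2 h).sub h
  rw [sub_self] at h1
  have h2 : Tendsto (fun m => (tailSum (t 𝕜) 0 m * f 𝕜 m (bad 𝕜)) • x 𝕜 m) atTop (𝓝 0) := by
    refine h1.congr fun m => ?_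
    rw [Finset.sum_range_succ, add_sub_cancel_left]
  have h3 : Tendsto (fun k : ℕ => 2 * k) atTop atTop := tendsto_id.const_mul_atTop' (by norm_num)
  have h4 := (tendsto_zero_iff_norm_tendsto_zero.1 (h2.comp h3))
  have h5 := (tendsto_order.1 h4).2 (1 / 2) (by norm_num)
  obtain ⟨k, hk⟩ := h5.exists
  simp only [Function.comp] at hk
  rw [norm_smul, norm_mul, x_even, norm_e, mul_one, f_even] at hk
  have hb1 : bad 𝕜 (2 * k) = 0 := by
    change badc 𝕜 (2 * k) = 0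
    unfold badc; rw [if_neg (by omega)]
  have hb2 : bad 𝕜 (2 * k + 1) = ((2 : 𝕜) ^ k)⁻¹ := by
    change badc 𝕜 (2 * k + 1) = _
    unfold badc; rw [if_pos (by omega), show (2 * k + 1) / 2 = k by omega]
  rw [hb1, hb2, zero_sub, norm_neg, norm_mul, norm_inv, norm_pow, norm_pow, RCLike.norm_ofNat,
    RCLike.norm_ofNat] at hk
  have h6 : ((1 : ℝ) / 2) ^ (k + 1) ≤ ‖tailSum (t 𝕜) 0 (2 * k)‖ := by
    unfold tailSum t
    rw [← RCLike.ofReal_tsum, RCLike.norm_ofReal]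
    have h7 : Summable fun j => tr 0 (2 * k + j) := by
      have := (summable_nat_add_iff (2 * k)).2 (hasSum_tr 0).summable
      refine this.congr fun j => ?_
      rw [add_comm]
    have h8 := h7.le_tsum 1 (fun j _ => tr_nonneg _ _)
    have h9 : tr 0 (2 * k + 1) = (1 / 2) ^ (k + 1) := by
      unfold tr
      rw [if_pos (by omega), show (2 * k + 1) / 2 - 0 + 1 = k + 1 by omega]
    rw [h9] at h8
    exact h8.trans (le_abs_self _)
  have h10 : (1 / 2 : ℝ) ≤ ((1 : ℝ) / 2) ^ (k + 1) * (8 ^ k * ((2 : ℝ) ^ k)⁻¹) := by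
    have h11 : ((1 : ℝ) / 2) ^ (k + 1) * (8 ^ k * ((2 : ℝ) ^ k)⁻¹) = 1 / 2 * 2 ^ k := by
      rw [pow_succ, show (8 : ℝ) = 2 * 2 * 2 by norm_num, mul_pow, mul_pow, one_div, inv_pow]
      field_simp
    rw [h11]
    have : (1 : ℝ) ≤ 2 ^ k := one_le_pow₀ (by norm_num)
    linarith
  have h12 : ((1 : ℝ) / 2) ^ (k + 1) * (8 ^ k * ((2 : ℝ) ^ k)⁻¹) ≤
      ‖tailSum (t 𝕜) 0 (2 * k)‖ * (8 ^ k * ((2 : ℝ) ^ k)⁻¹) :=
    mul_le_mul_of_nonneg_right h6 (by positivity)
  linarith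

end Construction

/-- **Main result.** There are a consistent matrix `t`, a Banach space (`ℓ₂`, real or complex) and
a T-basis `x` of it with respect to `t`, with associated functionals `f`, and a vector `y`, such
that for the tail-sum matrix the series `∑ i, (lam 0 i * f i y) • x i` diverges; in particular `x`
is not a gamma-basis with respect to the tail-sum matrix. -/
theorem result (𝕜 : Type) [RCLike 𝕜] :
    ∃ (t : ℕ → ℕ → 𝕜) (E : Type) (_ : NormedAddCommGroup E) (_ : InnerProductSpace 𝕜 E)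
      (_ : CompleteSpace E) (x : ℕ → E) (f : ℕ → StrongDual 𝕜 E),
      Consistent t ∧ IsTBasis t x ∧ IsMBasis x f ∧
      (∃ y : E, ∀ z : E, ¬ Tendsto
        (fun m => ∑ i ∈ Finset.range m, (tailSum t 0 i * f i y) • x i) atTop (𝓝 z)) ∧
      ¬ IsGammaBasis (tailSum t) x f :=
  ⟨t 𝕜, L2 𝕜, inferInstance, inferInstance, inferInstance, x 𝕜, f 𝕜, consistent, isTBasis, mbasis,
    ⟨bad 𝕜, diverges⟩, fun h => by
      obtain ⟨τ, h1, _⟩ := h.2 (bad 𝕜)
      exact diverges _ (h1 0)⟩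

end Pool.Agent.Results.MP_8f7167_an.TBasisNotGammaBasis
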